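import Pool.Agent.helper27.PC2.Stmt2

set_option linter.all false
set_option autoImplicit false

/-!
# DL (MP_405bd9_al): norms of powers
-/

namespace Pool.Agent.helper27.PC

open Finset

section DL

variable {R : Type} [CommRing R]

theorem DL_dot_eq (u u' : St →₀ R) : dot u u' = ∑ S ∈ u.support ∪ u'.support, u S * u' S := by
  unfold dot Finsupp.sum
  refine Finset.sum_subset Finset.subset_union_left ?_
  intro S _ hS
  show u S * u' S = 0
  rw [Finsupp.notMem_support_iff.mp hS, zero_mul]

theorem DL_dot_comm (u u' : St →₀ R) : dot u u' = dot u' u := by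
  rw [DL_dot_eq, DL_dot_eq, Finset.union_comm]
  exact Finset.sum_congr rfl fun S _ => mul_comm _ _

theorem DL_nrm (u : St →₀ R) : nrm u = dot u u := by
  unfold nrm dot
  exact Finsupp.sum_congr fun S _ => by rw [sq]

theorem DL_dot_add (u a b : St →₀ R) : dot u (a + b) = dot u a + dot u b := by
  unfold dot Finsupp.sum
  rw [← Finset.sum_add_distrib]
  exact Finset.sum_congr rfl fun S _ => by
    show u S * (a + b) S = u S * a S + u S * b S
    rw [Finsupp.add_apply, mul_add]

theorem DL_dot_smul (u a : St →₀ R) (c : R) : dot u (c • a) = c * dot u a := by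
  unfold dot Finsupp.sum
  rw [Finset.mul_sum]
  exact Finset.sum_congr rfl fun S _ => by
    show u S * (c • a) S = c * (u S * a S)
    rw [Finsupp.smul_apply, smul_eq_mul]; ring

theorem DL_dot_zero (u : St →₀ R) : dot u 0 = 0 := by
  unfold dot Finsupp.sum
  exact Finset.sum_eq_zero fun S _ => by simp

theorem DL_dot_sum {ι : Type} (s : Finset ι) (u : St →₀ R) (f : ι → St →₀ R) :
    dot u (∑ i ∈ s, f i) = ∑ i ∈ s, dot u (f i) := by
  classical
  induction s using Finset.induction_on with
  | empty => rw [Finset.sum_empty, Finset.sum_empty, DL_dot_zero]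
  | insert a s ha ih => rw [Finset.sum_insert ha, Finset.sum_insert ha, DL_dot_add, ih]

theorem DL_GV_zero (n k : ℕ) : GV n k (0 : St →₀ R) := by
  intro S hS
  simp at hS

/-- number of beads at the places below `a` -/
theorem DL_count {n k a : ℕ} {S : St} (hS : SD_Good n k S) (hk : k + a ≤ n) :
    (S.filter fun l => l.2 < a).card = 2 * a := by
  have h : S.filter (fun l => l.2 < a) = (Finset.univ : Finset Bool) ×ˢ Finset.range a := by
    ext ⟨b, p⟩
    simp only [Finset.mem_filter, Finset.mem_product, Finset.mem_univ, true_and,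
      Finset.mem_range]
    constructor
    · exact fun h => h.2
    · intro hp
      refine ⟨?_, hp⟩
      by_contra hn
      have := SD_good_hole hS (b := b) (h := p) (fun h => hn (SD_mem_pos.mp h))
      omega
  rw [h, Finset.card_product]
  simp

theorem DL_Dg {n k a : ℕ} (u : St →₀ R) (hu : GV n k u) (hk : k + a ≤ n) (x : Lab → R)
    (hx : ∀ l, x l * x l = 1) :
    Dg (fun l => x l * x l - if a ≤ l.2 then x (dn a l) * x (dn a l) else 0) u =
      ((2 * a : ℕ) : R) • u := by
  have hf : (fun l : Lab => x l * x l - if a ≤ l.2 then x (dn a l) * x (dn a l) else 0) =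
      fun l => if l.2 < a then (1 : R) else 0 := by
    funext l
    rw [hx, hx]
    by_cases h : a ≤ l.2
    · rw [if_pos h, if_neg (by omega), sub_self]
    · rw [if_neg h, if_pos (by omega), sub_zero]
  rw [hf]
  unfold Dg
  rw [Finsupp.linearCombination_apply]
  have h1 : (u.sum fun S c => c • Finsupp.single S (∑ l ∈ S, if l.2 < a then (1 : R) else 0)) =
      u.sum fun S c => ((2 * a : ℕ) : R) • Finsupp.single S c := by
    refine Finsupp.sum_congr fun S hS => ?_
    have h2 : (∑ l ∈ S, if l.2 < a then (1 : R) else 0) = ((2 * a : ℕ) : R) := by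
      rw [← DL_count (hu S hS) hk, Finset.sum_ite, Finset.sum_const_zero, add_zero,
        Finset.sum_const, nsmul_eq_mul, mul_one]
    rw [h2, Finsupp.smul_single, Finsupp.smul_single, smul_eq_mul, smul_eq_mul, mul_comm]
  rw [h1, ← Finsupp.smul_sum, Finsupp.sum_single]

end DL

/-- abstract normal ordering -/
theorem DL_c1 {R M : Type} [CommRing R] [AddCommGroup M] [Module R M] (D U : M →ₗ[R] M) (c : R)
    (G : ℕ → M → Prop) (n a : ℕ) (hU : ∀ k u, G k u → G (k + a) (U u))
    (hc : ∀ k u, G k u → k + a ≤ n → D (U u) = U (D u) + c • u) :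
    ∀ (j k : ℕ) (u : M), G k u → k + (j + 1) * a ≤ n →
      D ((U ^ (j + 1)) u) = (U ^ (j + 1)) (D u) + ((j + 1 : ℕ) : R) • c • (U ^ j) u := by
  intro j
  induction j with
  | zero =>
    intro k u hu hk
    rw [zero_add, pow_one, hc k u hu (by omega), pow_zero]
    simp
  | succ j ih =>
    intro k u hu hk
    have h1 : k + (j + 1 + 1) * a = (k + a) + (j + 1) * a := by ring
    have h2 := ih (k + a) (U u) (hU k u hu) (by omega)
    have h3 : ∀ (i : ℕ) (w : M), (U ^ (i + 1)) w = (U ^ i) (U w) := by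
      intro i w
      rw [pow_succ]; rfl
    have hka : k + a ≤ n := by
      have : (j + 1 + 1) * a = a + (j + 1) * a := by ring
      omega
    rw [h3 (j + 1) u, h2, hc k u hu hka, map_add, map_smul, ← h3 (j + 1) (D u), ← h3 j u]
    push_cast
    module

theorem DL_c2 {R M : Type} [CommRing R] [AddCommGroup M] [Module R M] (D U : M →ₗ[R] M) (c : R)
    (G : ℕ → M → Prop) (n a : ℕ) (hD : ∀ k u, G k u → G (k - a) (D u))
    (hc : ∀ k u, G k u → k + a ≤ n → D (U u) = U (D u) + c • u) :
    ∀ (i k : ℕ) (u : M), G k u → k + a ≤ n →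
      (D ^ i) (U u) = U ((D ^ i) u) + ((i : ℕ) : R) • c • (D ^ (i - 1)) u := by
  intro i
  induction i with
  | zero =>
    intro k u hu hk
    simp
  | succ i ih =>
    intro k u hu hk
    have h3 : ∀ (i : ℕ) (w : M), (D ^ (i + 1)) w = (D ^ i) (D w) := by
      intro i w
      rw [pow_succ]; rfl
    rw [h3, hc k u hu hk, map_add, map_smul, ih (k - a) (D u) (hD k u hu) (by omega), ← h3,
      Nat.add_sub_cancel]
    rcases Nat.eq_zero_or_pos i with h0 | h0
    · subst h0
      simp
    · have h4 : (D ^ (i - 1)) (D u) = (D ^ i) u := by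
        rw [← h3, Nat.sub_add_cancel h0]
      rw [h4]
      push_cast
      module

/-- the coefficients -/
def DL_W (j i : ℕ) : ℕ := (j.choose i) ^ 2 * (j - i).factorial

theorem DL_W_zero (j : ℕ) : DL_W (j + 1) 0 = (j + 1) * DL_W j 0 := by
  unfold DL_W
  simp [Nat.factorial_succ]

theorem DL_W_self (j : ℕ) : DL_W (j + 1) (j + 1) = DL_W j j := by
  unfold DL_W
  simp

theorem DL_W_succ (j i : ℕ) (h : i + 1 ≤ j) :
    DL_W (j + 1) (i + 1) = DL_W j i + (i + 1 + j + 1) * DL_W j (i + 1) := by
  unfold DL_W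
  obtain ⟨d, rfl⟩ : ∃ d, j = i + 1 + d := ⟨j - (i + 1), by omega⟩
  have e1 : i + 1 + d + 1 - (i + 1) = d + 1 := by omega
  have e2 : i + 1 + d - i = d + 1 := by omega
  have e3 : i + 1 + d - (i + 1) = d := by omega
  rw [e1, e2, e3, Nat.factorial_succ, Nat.choose_succ_succ]
  set x := (i + 1 + d).choose i with hx
  set y := (i + 1 + d).choose (i + 1) with hy
  have h1 : y * (i + 1) = x * (d + 1) := by
    have := Nat.choose_succ_right_eq (i + 1 + d) i
    rw [e2] at this
    exact this
  have h2 : (x + y) ^ 2 * (d + 1) = x ^ 2 * (d + 1) + (i + 1 + (i + 1 + d) + 1) * y ^ 2 := by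
    have h3 : (x + y) ^ 2 * (d + 1) = x ^ 2 * (d + 1) + 2 * (x * (d + 1)) * y + y ^ 2 * (d + 1) := by
      ring
    rw [h3, ← h1]
    ring
  calc (x + y) ^ 2 * ((d + 1) * d.factorial) = ((x + y) ^ 2 * (d + 1)) * d.factorial := by ring
    _ = (x ^ 2 * (d + 1) + (i + 1 + (i + 1 + d) + 1) * y ^ 2) * d.factorial := by rw [h2]
    _ = x ^ 2 * ((d + 1) * d.factorial) +
        (i + 1 + (i + 1 + d) + 1) * (y ^ 2 * d.factorial) := by ring

theorem DL_main {R M : Type} [CommRing R] [AddCommGroup M] [Module R M] (D U : M →ₗ[R] M) (c : R)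
    (G : ℕ → M → Prop) (n a : ℕ) (hU : ∀ k u, G k u → G (k + a) (U u))
    (hD : ∀ k u, G k u → G (k - a) (D u)) (hUD : ∀ k u, G k u → G k (U (D u)))
    (hc : ∀ k u, G k u → k + a ≤ n → D (U u) = U (D u) + c • u) :
    ∀ (j k : ℕ) (u : M), G k u → k + j * a ≤ n →
      (D ^ j) ((U ^ j) u) = ∑ i ∈ Finset.range (j + 1),
        (((DL_W j i : ℕ) : R) * c ^ (j - i)) • (U ^ i) ((D ^ i) u) := by
  intro j
  induction j with
  | zero =>
    intro k u hu hk
    simp [DL_W]
  | succ j ih =>
    intro k u hu hk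
    have h3 : ∀ (i : ℕ) (w : M), (D ^ (i + 1)) w = (D ^ i) (D w) := by
      intro i w
      rw [pow_succ]; rfl
    have h4 : ∀ (i : ℕ) (w : M), (U ^ (i + 1)) w = (U ^ i) (U w) := by
      intro i w
      rw [pow_succ]; rfl
    have hja : (j + 1) * a = j * a + a := by ring
    have hk1 : k + j * a ≤ n := by omega
    have hk2 : k + a ≤ n := by
      have : 0 ≤ j * a := Nat.zero_le _
      omega
    rw [h3, DL_c1 D U c G n a hU hc j k u hu hk, map_add, map_smul, map_smul, h4 j (D u),
      ih k (U (D u)) (hUD k u hu) hk1, ih k u hu hk1]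
    have h5 : ∀ i : ℕ, (U ^ i) ((D ^ i) (U (D u))) =
        (U ^ (i + 1)) ((D ^ (i + 1)) u) + ((i : ℕ) : R) • c • (U ^ i) ((D ^ i) u) := by
      intro i
      rw [DL_c2 D U c G n a hD hc i (k - a) (D u) (hD k u hu) (by omega), map_add, map_smul,
        map_smul, ← h3, ← h4]
      congr 1
      rcases Nat.eq_zero_or_pos i with h0 | h0
      · subst h0
        simp
      · rw [← h3, Nat.sub_add_cancel h0]
    set e : ℕ → M := fun i => (U ^ i) ((D ^ i) u) with he
    have h6 : (∑ i ∈ Finset.range (j + 1),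
        (((DL_W j i : ℕ) : R) * c ^ (j - i)) • (U ^ i) ((D ^ i) (U (D u)))) =
        ∑ i ∈ Finset.range (j + 1), ((((DL_W j i : ℕ) : R) * c ^ (j - i)) • e (i + 1) +
          (((i * DL_W j i : ℕ) : R) * c ^ (j + 1 - i)) • e i) := by
      refine Finset.sum_congr rfl fun i hi => ?_
      have hi' : i ≤ j := by
        have := Finset.mem_range.mp hi
        omega
      rw [h5, smul_add]
      congr 1
      rw [show j + 1 - i = (j - i) + 1 by omega, pow_succ]
      push_cast
      module
    have h7 : ((j + 1 : ℕ) : R) • c • ∑ i ∈ Finset.range (j + 1),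
        (((DL_W j i : ℕ) : R) * c ^ (j - i)) • (U ^ i) ((D ^ i) u) =
        ∑ i ∈ Finset.range (j + 1), ((((j + 1) * DL_W j i : ℕ) : R) * c ^ (j + 1 - i)) • e i := by
      rw [Finset.smul_sum, Finset.smul_sum]
      refine Finset.sum_congr rfl fun i hi => ?_
      have hi' : i ≤ j := by
        have := Finset.mem_range.mp hi
        omega
      rw [show j + 1 - i = (j - i) + 1 by omega, pow_succ]
      push_cast
      module
    rw [h6, h7, Finset.sum_add_distrib, add_assoc, ← Finset.sum_add_distrib]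
    have h8 : (∑ i ∈ Finset.range (j + 1), ((((i * DL_W j i : ℕ) : R) * c ^ (j + 1 - i)) • e i +
        ((((j + 1) * DL_W j i : ℕ) : R) * c ^ (j + 1 - i)) • e i)) =
        ∑ i ∈ Finset.range (j + 1), ((((i + (j + 1)) * DL_W j i : ℕ) : R) * c ^ (j + 1 - i)) • e i := by
      refine Finset.sum_congr rfl fun i _ => ?_
      rw [← add_smul]
      congr 1
      push_cast
      ring
    rw [h8, Finset.sum_range_succ' (fun i => ((((i + (j + 1)) * DL_W j i : ℕ) : R) *
      c ^ (j + 1 - i)) • e i) j, Finset.sum_range_succ (fun i => (((DL_W j i : ℕ) : R) *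
      c ^ (j - i)) • e (i + 1)) j]
    rw [Finset.sum_range_succ' (fun i => (((DL_W (j + 1) i : ℕ) : R) *
      c ^ (j + 1 - i)) • (U ^ i) ((D ^ i) u)) (j + 1), Finset.sum_range_succ]
    have h9 : (∑ i ∈ Finset.range j, (((DL_W (j + 1) (i + 1) : ℕ) : R) *
        c ^ (j + 1 - (i + 1))) • (U ^ (i + 1)) ((D ^ (i + 1)) u)) =
        (∑ i ∈ Finset.range j, (((DL_W j i : ℕ) : R) * c ^ (j - i)) • e (i + 1)) +
        ∑ i ∈ Finset.range j, ((((i + 1 + (j + 1)) * DL_W j (i + 1) : ℕ) : R) *
          c ^ (j + 1 - (i + 1))) • e (i + 1) := by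
      rw [← Finset.sum_add_distrib]
      refine Finset.sum_congr rfl fun i hi => ?_
      have hi' : i + 1 ≤ j := by
        have := Finset.mem_range.mp hi
        omega
      rw [DL_W_succ j i hi', show j + 1 - (i + 1) = j - i by omega, ← add_smul]
      congr 1
      push_cast
      ring
    rw [h9, DL_W_self, DL_W_zero]
    simp only [zero_add, Nat.sub_zero, pow_zero, Nat.sub_self]
    abel

theorem DL (hA : LA_stmt) (hG : LG_stmt) (hB : LB_stmt) : DL_stmt := by
  intro R _ x hx n k a j u ha hu hk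
  set D := Low x a with hD
  set U := Rib x a with hU
  have hadj : ∀ (j : ℕ) (p q : St →₀ R), dot ((U ^ j) p) q = dot p ((D ^ j) q) := by
    intro j
    induction j with
    | zero => intro p q; simp
    | succ j ih =>
      intro p q
      have e1 : (U ^ (j + 1)) p = U ((U ^ j) p) := by rw [pow_succ']; rfl
      have e2 : (D ^ (j + 1)) q = (D ^ j) (D q) := by rw [pow_succ]; rfl
      rw [e1, e2, hA R x a _ _ ha, ih]
  have gU : ∀ (k : ℕ) (u : St →₀ R), GV n k u → GV n (k + a) (U u) := fun k u h =>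
    (hG R x n k a u ha h).1
  have gD : ∀ (k : ℕ) (u : St →₀ R), GV n k u → GV n (k - a) (D u) := by
    intro k u h
    rcases Nat.lt_or_ge k a with h1 | h1
    · rw [(hG R x n k a u ha h).2.2 h1]
      exact DL_GV_zero _ _
    · exact (hG R x n k a u ha h).2.1 h1
  have gUD : ∀ (k : ℕ) (u : St →₀ R), GV n k u → GV n k (U (D u)) := by
    intro k u h
    rcases Nat.lt_or_ge k a with h1 | h1
    · rw [(hG R x n k a u ha h).2.2 h1, map_zero]
      exact DL_GV_zero _ _
    · have := gU (k - a) (D u) ((hG R x n k a u ha h).2.1 h1)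
      rwa [Nat.sub_add_cancel h1] at this
  have hc : ∀ (k : ℕ) (u : St →₀ R), GV n k u → k + a ≤ n →
      D (U u) = U (D u) + ((2 * a : ℕ) : R) • u := by
    intro k u h h1
    have h2 := (hB R x x n k a a u ha ha h h1).2.1 rfl
    rw [DL_Dg u h h1 x hx] at h2
    rw [← h2]
    abel
  have hmain := DL_main D U ((2 * a : ℕ) : R) (fun k u => GV n k u) n a gU gD gUD hc j k u hu hk
  rw [DL_nrm, hadj, hmain, DL_dot_sum]
  refine Finset.sum_congr rfl fun i _ => ?_
  rw [DL_dot_smul, DL_dot_comm, hadj, ← DL_nrm]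
  congr 1
  unfold DL_W
  push_cast
  ring

end Pool.Agent.helper27.PC
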