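import Pool.Agent.helper27.PC2.Stmt2

set_option linter.all false
set_option autoImplicit false

/-!
# EV (MP_405bd9_al): values of `PU` at `1` and `-1`
-/

namespace Pool.Agent.helper27.PC

open Finset Polynomial

/-- evaluation of the entries -/
noncomputable def EV_ev (c : ℤ) (u : St →₀ ℤ[X]) : St →₀ ℤ :=
  Finsupp.mapRange (fun p : ℤ[X] => p.eval c) (by simp) u

theorem EV_ev_apply (c : ℤ) (u : St →₀ ℤ[X]) (S : St) : EV_ev c u S = (u S).eval c := by
  unfold EV_ev
  rw [Finsupp.mapRange_apply]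

theorem EV_ev_add (c : ℤ) (u u' : St →₀ ℤ[X]) : EV_ev c (u + u') = EV_ev c u + EV_ev c u' := by
  ext S
  rw [EV_ev_apply, Finsupp.add_apply, Finsupp.add_apply, EV_ev_apply, EV_ev_apply,
    Polynomial.eval_add]

theorem EV_ev_zero (c : ℤ) : EV_ev c 0 = 0 := by
  ext S
  rw [EV_ev_apply]
  simp

theorem EV_ev_single (c : ℤ) (S : St) (p : ℤ[X]) :
    EV_ev c (Finsupp.single S p) = Finsupp.single S (p.eval c) := by
  unfold EV_ev
  rw [Finsupp.mapRange_single]

theorem EV_ev_sum {ι : Type} (c : ℤ) (s : Finset ι) (f : ι → St →₀ ℤ[X]) :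
    EV_ev c (∑ i ∈ s, f i) = ∑ i ∈ s, EV_ev c (f i) := by
  classical
  induction s using Finset.induction_on with
  | empty => rw [Finset.sum_empty, Finset.sum_empty, EV_ev_zero]
  | insert a s ha ih => rw [Finset.sum_insert ha, Finset.sum_insert ha, EV_ev_add, ih]

theorem EV_Rib_single {R : Type} [CommRing R] (w : Lab → R) (a : ℕ) (S : St) (r : R) :
    Rib w a (Finsupp.single S r) =
      ∑ l ∈ addable a S, Finsupp.single (move a S l) (r * ((-1) ^ cnt S l a * w l)) := by
  unfold Rib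
  rw [Finsupp.linearCombination_single, Finset.smul_sum]
  exact Finset.sum_congr rfl fun l _ => by rw [Finsupp.smul_single, smul_eq_mul]

theorem EV_Rib_ev (c : ℤ) (w : Lab → ℤ[X]) (a : ℕ) (u : St →₀ ℤ[X]) :
    EV_ev c (Rib w a u) = Rib (fun l => (w l).eval c) a (EV_ev c u) := by
  induction u using Finsupp.induction_linear with
  | zero => rw [map_zero, EV_ev_zero, map_zero]
  | add f g hf hg => rw [map_add, EV_ev_add, EV_ev_add, map_add, hf, hg]
  | single S p =>
    rw [EV_Rib_single, EV_ev_sum, EV_ev_single, EV_Rib_single]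
    refine Finset.sum_congr rfl fun l _ => ?_
    rw [EV_ev_single]
    congr 1
    simp

theorem EV_nrm (c : ℤ) (u : St →₀ ℤ[X]) : nrm (EV_ev c u) = (nrm u).eval c := by
  unfold nrm
  rw [Finsupp.sum_of_support_subset (EV_ev c u) (s := u.support) ?_ _ (fun _ _ => by simp)]
  · unfold Finsupp.sum
    rw [Polynomial.eval_finset_sum]
    refine Finset.sum_congr rfl fun S _ => ?_
    rw [EV_ev_apply, Polynomial.eval_pow]
  · intro S hS
    rw [Finsupp.mem_support_iff] at hS ⊢
    intro h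
    apply hS
    rw [EV_ev_apply, h, Polynomial.eval_zero]

theorem EV_pow_ev (c : ℤ) (j : ℕ) : ∀ u : St →₀ ℤ[X],
    EV_ev c (((Rib (fun _ => (1 : ℤ[X])) 1) ^ j) u) =
      ((Rib (fun _ => (1 : ℤ)) 1) ^ j) (EV_ev c u) := by
  induction j with
  | zero => intro u; simp
  | succ j ih =>
    intro u
    have e1 : ∀ {R : Type} [CommRing R] (u : St →₀ R),
        ((Rib (fun _ => (1 : R)) 1) ^ (j + 1)) u =
          ((Rib (fun _ => (1 : R)) 1) ^ j) (Rib (fun _ => (1 : R)) 1 u) := by
      intro R _ u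
      rw [pow_succ]; rfl
    rw [e1, e1, ih, EV_Rib_ev]
    simp

/-- two weights that agree up to a sign on the beads that occur -/
theorem EV_Rib_congr {n k : ℕ} (w w' : Lab → ℤ) (e : ℤ) (a : ℕ) (u : St →₀ ℤ)
    (hu : ∀ S ∈ u.support, ∀ l ∈ addable a S, w l = e * w' l) :
    Rib w a u = e • Rib w' a u := by
  unfold Rib
  rw [Finsupp.linearCombination_apply, Finsupp.linearCombination_apply, Finsupp.smul_sum]
  refine Finsupp.sum_congr fun S hS => ?_
  rw [Finset.smul_sum, Finset.smul_sum, Finset.smul_sum]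
  refine Finset.sum_congr rfl fun l hl => ?_
  rw [hu S hS l hl, Finsupp.smul_single, Finsupp.smul_single, Finsupp.smul_single]
  congr 1
  simp only [smul_eq_mul]
  ring

theorem EV_sub_support (c : ℤ) {n k : ℕ} {u : St →₀ ℤ[X]} (hu : GV n k u) : GV n k (EV_ev c u) := by
  intro S hS
  apply hu
  rw [Finsupp.mem_support_iff] at hS ⊢
  intro h
  apply hS
  rw [EV_ev_apply, h, Polynomial.eval_zero]

/-- value of the weight at `1` -/
theorem EV_w1 (t : Bool) (m k a : ℕ) (l : Lab) : (wT t m k a l).eval 1 = yt l := by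
  unfold wT wq yt
  split_ifs <;> simp

/-- the sign of one step at `-1` -/
def EV_e (t : Bool) (m k a : ℕ) : ℤ := if t then (-1) ^ (k + a + m + 1) else (-1) ^ (k + a + m)

theorem EV_e_sq (t : Bool) (m k a : ℕ) : EV_e t m k a * EV_e t m k a = 1 := by
  unfold EV_e
  split_ifs <;> rw [← pow_add, ← two_mul, pow_mul] <;> simp

theorem EV_neg_pow_sub {x m : ℕ} (h : m ≤ x) : (-1 : ℤ) ^ (x - m) = (-1) ^ (x + m) := by
  have h1 : x + m = (x - m) + 2 * m := by omega
  rw [h1, pow_add, pow_mul (-1 : ℤ) 2 m]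
  simp

theorem EV_w2 (t : Bool) (m k a : ℕ) (l : Lab) (h : m ≤ k + a + l.2) :
    (wT t m k a l).eval (-1) = EV_e t m k a * xt t l := by
  unfold wT wq EV_e xt
  have h1 : (-1 : ℤ) ^ (k + a + l.2 - m) = (-1) ^ (k + a + m) * (-1) ^ l.2 := by
    rw [EV_neg_pow_sub h, ← pow_add]
    congr 1
    ring
  have h2 : (-1 : ℤ) ^ (k + a + l.2 + 1 - m) = (-1) ^ (k + a + m + 1) * (-1) ^ l.2 := by
    rw [EV_neg_pow_sub (by omega), ← pow_add]
    congr 1
    ring
  cases t <;> cases hl : l.1 <;> simp [h1, h2] <;> ring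

theorem EV_one (t : Bool) (n : ℕ) : ∀ (l : List ℕ) (k : ℕ) (u : St →₀ ℤ[X]),
    EV_ev 1 (fockT t n k l u) = app yt l (EV_ev 1 u) := by
  intro l
  induction l with
  | nil => intro k u; rfl
  | cons a l ih =>
    intro k u
    show EV_ev 1 (fockT t n (k + a) l (Rib (wT t n k a) a u)) = app yt l (Rib yt a (EV_ev 1 u))
    rw [ih, EV_Rib_ev]
    have : (fun l => (wT t n k a l).eval 1) = yt := by
      funext l
      exact EV_w1 t n k a l
    rw [this]

theorem EV_app_smul (w : Lab → ℤ) (e : ℤ) : ∀ (l : List ℕ) (u : St →₀ ℤ),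
    app w l (e • u) = e • app w l u := by
  intro l
  induction l with
  | nil => intro u; rfl
  | cons a l ih =>
    intro u
    show app w l (Rib w a (e • u)) = e • app w l (Rib w a u)
    rw [map_smul, ih]

theorem EV_two (hG : LG_stmt) (t : Bool) (n : ℕ) : ∀ (l : List ℕ), (∀ a ∈ l, 1 ≤ a) →
    ∀ (k : ℕ) (u : St →₀ ℤ[X]), GV n k u →
    ∃ e : ℤ, e * e = 1 ∧ EV_ev (-1) (fockT t n k l u) = e • app (xt t) l (EV_ev (-1) u) := by
  intro l
  induction l with
  | nil => intro _ k u _; exact ⟨1, by norm_num, by rw [one_smul]; rfl⟩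
  | cons a l ih =>
    intro hl k u hu
    have ha : 1 ≤ a := hl a (by simp)
    obtain ⟨e, he, h1⟩ := ih (fun b hb => hl b (by simp [hb])) (k + a)
      (Rib (wT t n k a) a u) ((hG ℤ[X] _ n k a u ha hu).1)
    refine ⟨e * EV_e t n k a, ?_, ?_⟩
    · have := EV_e_sq t n k a
      calc e * EV_e t n k a * (e * EV_e t n k a) = (e * e) * (EV_e t n k a * EV_e t n k a) := by ring
        _ = 1 := by rw [he, this, one_mul]
    · show EV_ev (-1) (fockT t n (k + a) l (Rib (wT t n k a) a u)) =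
        (e * EV_e t n k a) • app (xt t) l (Rib (xt t) a (EV_ev (-1) u))
      rw [h1, EV_Rib_ev, EV_Rib_congr (n := n) (k := k) (fun l => (wT t n k a l).eval (-1)) (xt t)
        (EV_e t n k a) a (EV_ev (-1) u) ?_, EV_app_smul, smul_smul]
      intro S hS l hl'
      have hS' := EV_sub_support (-1) hu S hS
      apply EV_w2
      have h2 := SD_good_hole hS' (SD_add hl').2
      omega

theorem EV_nrm_smul (e : ℤ) (he : e * e = 1) (u : St →₀ ℤ) : nrm (e • u) = nrm u := by
  unfold nrm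
  rw [Finsupp.sum_of_support_subset (e • u) (s := u.support) (Finsupp.support_smul) _
    (fun _ _ => by simp)]
  unfold Finsupp.sum
  refine Finset.sum_congr rfl fun S _ => ?_
  rw [Finsupp.smul_apply, smul_eq_mul]
  calc (e * u S) ^ 2 = (e * e) * (u S) ^ 2 := by ring
    _ = (u S) ^ 2 := by rw [he, one_mul]

theorem EV (hG : LG_stmt) : EV_stmt := by
  intro t n β j hβ hs
  have hv : GV n 0 (Finsupp.single (vac n) (1 : ℤ[X])) := by
    intro S hS
    have h1 := Finsupp.support_single_subset hS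
    rw [Finset.mem_singleton] at h1
    rw [h1]
    exact SD_good_vac n
  have he : ∀ c : ℤ, EV_ev c (Finsupp.single (vac n) (1 : ℤ[X])) = Finsupp.single (vac n) 1 := by
    intro c
    rw [EV_ev_single]
    simp
  constructor
  · obtain ⟨e, h1, h2⟩ := EV_two hG t n β hβ 0 _ hv
    unfold PU vecT
    rw [← EV_nrm, EV_pow_ev, h2, he, map_smul, EV_nrm_smul e h1]
  · unfold PU vecT
    rw [← EV_nrm, EV_pow_ev, EV_one, he]

end Pool.Agent.helper27.PC
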